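import Mathlib
import Pool.Agent.Q60.D3.Stm2

/-!
# Project D3, jobs WGT and ISH
-/

namespace Pool.Agent.Q280.D3

open Matrix Pool.Agent.H204R3.CM Pool.Agent.H204R3.SP Pool.Agent.W437.HC Pool.Agent.W437.HD
  Pool.Agent.W437.HP Pool.Agent.W437.HR Pool.Agent.Q60.D3

theorem prod_zpow_sum {κ : Type} (s : Finset κ) (z : ℂ) (hz : z ≠ 0) (e : κ → ℤ) :
    ∏ k ∈ s, z ^ e k = z ^ ∑ k ∈ s, e k := by
  classical
  induction s using Finset.induction_on with
  | empty => simp
  | insert a s ha ih => rw [Finset.prod_insert ha, Finset.sum_insert ha, ih, zpow_add₀ hz]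

section

variable {B κ : Type} [Fintype B] [DecidableEq B] [Fintype κ] [DecidableEq κ]

/-- The value at eigenvectors vanishes unless the sum of the eigenvalues is the weight. -/
theorem evalF_eigen {D : Matrix B B ℂ} {c : (κ → B) → ℂ} {w : ℤ} (h : act D c = (w : ℂ) • c)
    (e : κ → ℤ) (y : κ → B → ℂ) (hy : ∀ k, D *ᵥ y k = (e k : ℂ) • y k) (hw : ∑ k, e k ≠ w) :
    evalF c y = 0 := by
  have h1 := evalF_act D c y
  have h2 : ∀ k, evalF c (Function.update y k (D *ᵥ (y k))) = (e k : ℂ) * evalF c y := by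
    intro k
    rw [hy, evalF_update_smul, Function.update_eq_self]
  simp only [h2] at h1
  rw [← Finset.sum_mul, h] at h1
  have h3 : evalF ((w : ℂ) • c) y = (w : ℂ) * evalF c y := by
    simp only [evalF, Pi.smul_apply, smul_eq_mul, Finset.mul_sum, mul_assoc]
  rw [h3] at h1
  have h4 : ((∑ k, (e k : ℂ)) - w) * evalF c y = 0 := by rw [sub_mul, h1, sub_self]
  rcases mul_eq_zero.1 h4 with h5 | h5
  · exfalso
    apply hw
    have h6 : ((∑ k, e k : ℤ) : ℂ) = (w : ℂ) := by
      push_cast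
      exact sub_eq_zero.1 h5
    exact_mod_cast h6
  · exact h5

/-- A rotation multiplies the value by a power. -/
theorem evalF_rot {D : Matrix B B ℂ} (hD : D * D = 1) {c : (κ → B) → ℂ} {w : ℤ}
    (h : act D c = (w : ℂ) • c) (z : ℂ) (hz : z ≠ 0) (x : κ → B → ℂ) :
    evalF c (fun k => z • ((2 : ℂ)⁻¹ • (x k + D *ᵥ x k)) +
      z⁻¹ • ((2 : ℂ)⁻¹ • (x k - D *ᵥ x k))) = z ^ w * evalF c x := by
  have hDD : ∀ u : B → ℂ, D *ᵥ (D *ᵥ u) = u := fun u => by
    rw [mulVec_mulVec, hD, one_mulVec]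
  set p : κ → B → ℂ := fun k => (2 : ℂ)⁻¹ • (x k + D *ᵥ x k) with hp
  set q : κ → B → ℂ := fun k => (2 : ℂ)⁻¹ • (x k - D *ᵥ x k) with hq
  have hpD : ∀ k, D *ᵥ p k = p k := fun k => by
    rw [hp]
    simp only
    rw [mulVec_smul, mulVec_add, hDD, add_comm]
  have hqD : ∀ k, D *ᵥ q k = -q k := fun k => by
    rw [hq]
    simp only
    rw [mulVec_smul, mulVec_sub, hDD, ← smul_neg, neg_sub]
  have hx : x = p + q := by
    funext k
    rw [Pi.add_apply, hp, hq]
    simp only
    module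
  have h1 : (fun k => z • p k + z⁻¹ • q k) = (fun k => z • p k) + fun k => z⁻¹ • q k := rfl
  rw [h1]
  conv_rhs => rw [hx]
  rw [← evalM_apply, ← evalM_apply, MultilinearMap.map_add_univ, MultilinearMap.map_add_univ,
    Finset.mul_sum]
  refine Finset.sum_congr rfl fun s _ => ?_
  let e : κ → ℤ := fun k => if k ∈ s then 1 else -1
  have h2 : s.piecewise (fun k => z • p k) (fun k => z⁻¹ • q k) =
      fun k => (z ^ e k) • (s.piecewise p q) k := by
    funext k
    by_cases hk : k ∈ s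
    · rw [Finset.piecewise_eq_of_mem _ _ _ hk, Finset.piecewise_eq_of_mem _ _ _ hk]
      simp only [e, if_pos hk, zpow_one]
    · rw [Finset.piecewise_eq_of_notMem _ _ _ hk, Finset.piecewise_eq_of_notMem _ _ _ hk]
      simp only [e, if_neg hk, _root_.zpow_neg, zpow_one]
  rw [h2, MultilinearMap.map_smul_univ, prod_zpow_sum _ z hz, smul_eq_mul]
  by_cases hw : ∑ k, e k = w
  · rw [hw]
  · rw [evalM_apply, evalF_eigen h e _ (fun k => ?_) hw, mul_zero, mul_zero]
    by_cases hk : k ∈ s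
    · rw [Finset.piecewise_eq_of_mem _ _ _ hk, hpD]
      simp only [e, if_pos hk, Int.cast_one, one_smul]
    · rw [Finset.piecewise_eq_of_notMem _ _ _ hk, hqD]
      simp only [e, if_neg hk, Int.cast_neg, Int.cast_one, neg_smul, one_smul]

end

/-- JOB WGT. -/
theorem wgt : S_wgt := by
  intro g Z hpos κ _ _ F w h
  have hY : IsUnit (imM Z).det := hpos.isUnit.map Matrix.detMonoidHom
  set c : (κ → Fin g ⊕ Fin g) → ℂ := fun I => F fun k => Pi.single (I k) 1 with hc
  -- the complex structure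
  have hJ : (JR Z).map (fun x : ℝ => (x : ℂ)) = Complex.I • DZ Z := by
    unfold DZ
    rw [smul_smul]
    simp
  have hD : DZ Z * DZ Z = 1 := by
    have h1 : cm (JR Z) * cm (JR Z) = -1 := by rw [← cm_mul, JR_sq hY, cm_neg, cm_one]
    unfold DZ
    rw [Matrix.smul_mul, Matrix.mul_smul]
    change -Complex.I • -Complex.I • (cm (JR Z) * cm (JR Z)) = 1
    rw [h1, smul_smul]
    simp
  -- the extension of a real vector
  let cv : (Fin g → ℂ) →ₗ[ℝ] (Fin g ⊕ Fin g → ℂ) :=
    (LinearMap.pi fun i => (Complex.ofRealCLM.toLinearMap).comp (LinearMap.proj i)).comp (invR Z)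
  have hcv : ∀ u i, cv u i = ((invR Z u i : ℝ) : ℂ) := fun u i => rfl
  refine ⟨((evalM c).restrictScalars ℝ).compLinearMap fun _ => cv, fun v => ?_, fun z hz u => ?_⟩
  · change evalM c (fun k => cv (perOne Z (v k))) = F v
    have h1 : ∀ x : Fin g ⊕ Fin g → ℚ, cv (perOne Z x) = fun i => ((x i : ℚ) : ℂ) := by
      intro x
      have h2 : perOne Z x = perR Z (fun i => ((x i : ℚ) : ℝ)) := by
        funext i
        simp [perR, perOne]
      funext i
      rw [hcv, h2, invR_perR hY]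
      simp
    simp only [h1]
    let cq : (Fin g ⊕ Fin g → ℚ) →ₗ[ℚ] (Fin g ⊕ Fin g → ℂ) :=
      LinearMap.pi fun i => (Algebra.linearMap ℚ ℂ).comp (LinearMap.proj i)
    have h2 : ((evalM c).restrictScalars ℚ).compLinearMap (fun _ => cq) = F := by
      refine Module.Basis.ext_multilinear (fun _ => Pi.basisFun ℚ (Fin g ⊕ Fin g)) fun I => ?_
      simp only [Pi.basisFun_apply]
      change evalF c (fun k => cq (Pi.single (I k) 1)) = F fun k => Pi.single (I k) 1
      have h3 : ∀ k, cq (Pi.single (I k) 1) = Pi.single (I k) 1 := by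
        intro k
        funext i
        change ((Pi.single (I k) (1 : ℚ) : Fin g ⊕ Fin g → ℚ) i : ℂ) = _
        by_cases hi : i = I k
        · subst hi
          rw [Pi.single_eq_same, Pi.single_eq_same, Rat.cast_one]
        · rw [Pi.single_eq_of_ne hi, Pi.single_eq_of_ne hi, Rat.cast_zero]
      simp only [h3]
      rw [evalF_single]
    exact congrArg (fun G => G v) h2
  · change evalM c (fun k => cv (z • u k)) = z ^ w * evalM c (fun k => cv (u k))
    have hz0 : z ≠ 0 := by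
      rintro rfl
      simp at hz
    have hzi : z⁻¹ = starRingEnd ℂ z := by
      rw [Complex.inv_def, Complex.normSq_eq_norm_sq, hz]
      simp
    have h1 : ∀ k, cv (z • u k) = z • ((2 : ℂ)⁻¹ • (cv (u k) + DZ Z *ᵥ cv (u k))) +
        z⁻¹ • ((2 : ℂ)⁻¹ • (cv (u k) - DZ Z *ᵥ cv (u k))) := by
      intro k
      have h2 : cv (z • u k) = (z.re : ℂ) • cv (u k) +
          (z.im : ℂ) • ((JR Z).map (fun x : ℝ => (x : ℂ)) *ᵥ cv (u k)) := by
        funext i
        rw [hcv, invR_rotate hY]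
        simp only [Pi.add_apply, Pi.smul_apply, smul_eq_mul, Complex.ofReal_add,
          Complex.ofReal_mul, mulVec, dotProduct, Matrix.map_apply, Complex.ofReal_sum, hcv]
      rw [h2, hJ, smul_mulVec, hzi]
      have h3 : (z.re : ℂ) = (2 : ℂ)⁻¹ * (z + starRingEnd ℂ z) := by
        rw [Complex.re_eq_add_conj]
        ring
      have h4 : (z.im : ℂ) * Complex.I = (2 : ℂ)⁻¹ * (z - starRingEnd ℂ z) := by
        rw [Complex.im_eq_sub_conj]
        field_simp
      rw [smul_smul, h3, h4]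
      module
    simp only [h1]
    exact evalF_rot hD h z hz0 _

/-- JOB ISH. -/
theorem ish : S_ish := by
  intro g Z hpos κ _ _ f hf
  have hY : IsUnit (imM Z).det := hpos.isUnit.map Matrix.detMonoidHom
  obtain ⟨ψ, h1, h2⟩ := hf
  let f' : (Fin 1 → Fin g ⊕ Fin g → ℚ) [⋀^κ]→ₗ[ℚ] ℚ := f.compLinearMap (LinearMap.proj 0)
  have hf' : IsHodge (perPow Z 1) f' := by
    refine ⟨ψ.compLinearMap fun _ => LinearMap.proj 0, fun v => ?_, fun z hz u => ?_⟩
    · exact h1 fun k => v k 0
    · exact h2 z hz fun k => u k 0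
  have h3 := isH_coe Z hY hf' (fun _ => 0)
  have h4 : coe f' (fun _ : κ => (0 : Fin 1)) =
      fun I : κ → Fin g ⊕ Fin g => f fun k => Pi.single (I k) 1 := by
    funext I
    change f (fun k => (Pi.single (0 : Fin 1) (Pi.single (I k) 1) :
      Fin 1 → Fin g ⊕ Fin g → ℚ) 0) = _
    simp only [Pi.single_eq_same]
  rwa [h4] at h3

end Pool.Agent.Q280.D3
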