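import Mathlib
import Pool.Agent.Q60.D3.Stm2

/-!
# Project D3, job NOL: pieces of types `sp` and `sl_3` are independent
-/

namespace Pool.Agent.Q280.D3

open Matrix Pool.Agent.W437.HP Pool.Agent.Q60.D3

/-- The traceless part, as a linear map. -/
noncomputable def tlL : Matrix (Fin 3) (Fin 3) ℂ →ₗ[ℂ] Matrix (Fin 3) (Fin 3) ℂ where
  toFun := tl
  map_add' A B := by
    unfold tl
    rw [trace_add, add_div, add_smul]
    abel
  map_smul' c A := by
    unfold tl
    rw [trace_smul, smul_eq_mul, RingHom.id_apply, smul_sub, smul_smul, mul_div_assoc]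

theorem tlL_apply (A : Matrix (Fin 3) (Fin 3) ℂ) : tlL A = tl A := rfl

theorem tl_sub (A B : Matrix (Fin 3) (Fin 3) ℂ) : tl (A - B) = tl A - tl B :=
  map_sub tlL A B

theorem tl_smul (c : ℂ) (A : Matrix (Fin 3) (Fin 3) ℂ) : tl (c • A) = c • tl A :=
  map_smul tlL c A

theorem tl_of_trace {A : Matrix (Fin 3) (Fin 3) ℂ} (h : A.trace = 0) : tl A = A := by
  unfold tl
  rw [h, zero_div, zero_smul, sub_zero]

theorem trace_tl (A : Matrix (Fin 3) (Fin 3) ℂ) : (tl A).trace = 0 := by
  unfold tl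
  rw [trace_sub, trace_smul, trace_one, Fintype.card_fin, smul_eq_mul]
  push_cast
  ring

theorem comm_tl (A B : Matrix (Fin 3) (Fin 3) ℂ) : A * tl B - tl B * A = A * B - B * A := by
  unfold tl
  rw [Matrix.mul_sub, Matrix.sub_mul, Matrix.mul_smul, Matrix.smul_mul, Matrix.mul_one,
    Matrix.one_mul]
  abel

theorem trace_comm (A B : Matrix (Fin 3) (Fin 3) ℂ) : (A * B - B * A).trace = 0 := by
  rw [trace_sub, trace_mul_comm, sub_self]

theorem tl_comm (A B : Matrix (Fin 3) (Fin 3) ℂ) : tl (A * B - B * A) = A * B - B * A :=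
  tl_of_trace (trace_comm A B)

theorem tl_single {i j : Fin 3} (h : i ≠ j) (c : ℂ) :
    tl (Matrix.single i j c) = Matrix.single i j c := by
  apply tl_of_trace
  rw [trace_single_eq_of_ne _ _ _ h]

theorem tl_off (A : Matrix (Fin 3) (Fin 3) ℂ) {i j : Fin 3} (h : i ≠ j) : tl A i j = A i j := by
  unfold tl
  rw [Matrix.sub_apply, Matrix.smul_apply, one_apply_ne h, smul_zero, sub_zero]

theorem EE_inj {N : Type} [AddCommGroup N] [Module ℂ N] {w : N →ₗ[ℂ] N →ₗ[ℂ] ℂ}
    (hn : ∀ x, (∀ y, w x y = 0) → x = 0) {x x' : N} (hx : x ≠ 0) (hx' : ∀ c : ℂ, x' ≠ c • x)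
    {a b c : ℂ} (h : a • EE w x x + b • EE w x x' + c • EE w x' x' = 0) :
    a = 0 ∧ b = 0 ∧ c = 0 := by
  have hind : ∀ p q : ℂ, p • x + q • x' = 0 → p = 0 ∧ q = 0 := by
    intro p q h1
    have hq : q = 0 := by
      by_contra hq
      apply hx' (-(q⁻¹ * p))
      have h2 : q • x' = -(p • x) := by
        rw [eq_neg_iff_add_eq_zero, add_comm]
        exact h1
      rw [neg_smul, mul_smul, ← smul_neg, ← h2, smul_smul, inv_mul_cancel₀ hq, one_smul]
    rw [hq, zero_smul, add_zero] at h1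
    exact ⟨(smul_eq_zero.1 h1).resolve_right hx, hq⟩
  have h1 : ∀ u, (2 * a * w x u + b * w x' u) • x + (b * w x u + 2 * c * w x' u) • x' = 0 := by
    intro u
    have h2 := congrArg (fun F => F u) h
    simp only [LinearMap.add_apply, LinearMap.smul_apply, EE_apply, LinearMap.zero_apply] at h2
    rw [← h2]
    module
  have h3 : (2 * a) • x + b • x' = 0 := by
    apply hn
    intro u
    have h4 := (hind _ _ (h1 u)).1
    rw [map_add, map_smul, map_smul, LinearMap.add_apply, LinearMap.smul_apply,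
      LinearMap.smul_apply, smul_eq_mul, smul_eq_mul]
    exact h4
  have h5 : b • x + (2 * c) • x' = 0 := by
    apply hn
    intro u
    have h4 := (hind _ _ (h1 u)).2
    rw [map_add, map_smul, map_smul, LinearMap.add_apply, LinearMap.smul_apply,
      LinearMap.smul_apply, smul_eq_mul, smul_eq_mul]
    exact h4
  have h6 := hind _ _ h3
  have h7 := hind _ _ h5
  exact ⟨(mul_eq_zero.1 h6.1).resolve_left two_ne_zero, h6.2,
    (mul_eq_zero.1 h7.2).resolve_left two_ne_zero⟩

/-- Three vectors of the plane are linearly dependent. -/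
theorem dep3 (p q : Fin 3 → ℂ) : ∃ a : Fin 3 → ℂ, a ≠ 0 ∧ ∑ i, a i * p i = 0 ∧
    ∑ i, a i * q i = 0 := by
  let f : (Fin 3 → ℂ) →ₗ[ℂ] (Fin 2 → ℂ) :=
    LinearMap.pi ![Fintype.linearCombination ℂ p, Fintype.linearCombination ℂ q]
  have h : LinearMap.ker f ≠ ⊥ := LinearMap.ker_ne_bot_of_finrank_lt (by simp)
  obtain ⟨a, ha, ha0⟩ := Submodule.exists_mem_ne_zero_of_ne_bot h
  rw [LinearMap.mem_ker] at ha
  refine ⟨a, ha0, ?_, ?_⟩
  · have := congrFun ha 0
    simpa [f, Fintype.linearCombination_apply] using this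
  · have := congrFun ha 1
    simpa [f, Fintype.linearCombination_apply] using this

variable {M : Type} [AddCommGroup M] [Module ℂ M] {br : M → M → M}
    {N : Type} [AddCommGroup N] [Module ℂ N]
    {w : N →ₗ[ℂ] N →ₗ[ℂ] ℂ} {ρ : M →ₗ[ℂ] Module.End ℂ N} {T : M →ₗ[ℂ] Matrix (Fin 3) (Fin 3) ℂ}

/-- If the kernels are equal there is a contradiction. -/
theorem nol_aux [Nontrivial N] (hw : ∀ x, w x x = 0) (hn : ∀ x, (∀ y, w x y = 0) → x = 0)
    (hρ : ∀ X Y, ρ (br X Y) = ρ X * ρ Y - ρ Y * ρ X) (hsp : ∀ X, IsSp w (ρ X))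
    (hfull : ∀ x y, ∃ X, ρ X = EE w x y)
    (hT : ∀ X Y, T (br X Y) = T X * T Y - T Y * T X)
    (hTf : ∀ i j : Fin 3, i ≠ j → ∃ X, T X = Matrix.single i j 1)
    {δ : M} (hδ : T δ = dg) (hδ2 : ρ δ * ρ δ = 1)
    (h1 : ∀ X, ρ X = 0 → tl (T X) = 0) (h2 : ∀ X, tl (T X) = 0 → ρ X = 0) : False := by
  have hD : ∀ u, ρ δ (ρ δ u) = u := fun u => by
    have := congrArg (fun F => F u) hδ2
    exact this
  -- the eigenspaces
  have iso : ∀ (s : ℂ), s ≠ 0 → ∀ u v, ρ δ u = s • u → ρ δ v = s • v → w u v = 0 := by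
    intro s hs u v hu hv
    have h := hsp δ u v
    rw [hu, hv, map_smul, map_smul, LinearMap.smul_apply, smul_eq_mul] at h
    have h3 : (2 * s) * w u v = 0 := by linear_combination h
    exact (mul_eq_zero.1 h3).resolve_left (mul_ne_zero two_ne_zero hs)
  -- degree two
  have ent : ∀ A : Matrix (Fin 3) (Fin 3) ℂ, ∀ i j, (dg * A - A * dg) i j =
      ((![1, 1, -1] : Fin 3 → ℂ) i - (![1, 1, -1] : Fin 3 → ℂ) j) * A i j := by
    intro A i j
    rw [Matrix.sub_apply, dg, diagonal_mul, mul_diagonal]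
    ring
  have deg : ∀ X, ρ δ * ρ X - ρ X * ρ δ = (2 : ℂ) • ρ X →
      tl (T X) = Matrix.single 0 2 (T X 0 2) + Matrix.single 1 2 (T X 1 2) := by
    intro X hX
    have h3 : ρ (br δ X - (2 : ℂ) • X) = 0 := by
      rw [map_sub, hρ, map_smul, hX, sub_self]
    have h4 := h1 _ h3
    rw [map_sub, map_smul, hT, tl_sub, tl_comm, tl_smul, sub_eq_zero, hδ] at h4
    have h5 : ∀ i j, (dg * T X - T X * dg) i j = 2 * tl (T X) i j := fun i j => by
      rw [h4]
      rfl
    have h6 : ∀ i j, ((![1, 1, -1] : Fin 3 → ℂ) i - (![1, 1, -1] : Fin 3 → ℂ) j) * T X i j =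
        2 * tl (T X) i j := fun i j => by rw [← ent, h5]
    have e02 := tl_off (T X) (show (0 : Fin 3) ≠ 2 by decide)
    have e12 := tl_off (T X) (show (1 : Fin 3) ≠ 2 by decide)
    have e20 := tl_off (T X) (show (2 : Fin 3) ≠ 0 by decide)
    have e21 := tl_off (T X) (show (2 : Fin 3) ≠ 1 by decide)
    have k00 := h6 0 0
    have k01 := h6 0 1
    have k10 := h6 1 0
    have k11 := h6 1 1
    have k20 := h6 2 0
    have k21 := h6 2 1
    have k22 := h6 2 2
    simp at k00 k01 k10 k11 k20 k21 k22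
    have k20' : T X 2 0 = 0 := by
      rw [e20] at k20
      linear_combination (-1 / 4 : ℂ) * k20
    have k21' : T X 2 1 = 0 := by
      rw [e21] at k21
      linear_combination (-1 / 4 : ℂ) * k21
    clear h3 h4 h5 h6 k20 k21
    ext i j
    fin_cases i <;> fin_cases j <;> simp [Matrix.single, *]
  obtain ⟨z, hz⟩ := exists_ne (0 : N)
  -- a nonzero vector of the positive part
  have hplus : ∃ x, x ≠ 0 ∧ ρ δ x = x := by
    by_contra hcon
    push Not at hcon
    have h3 : ∀ u, ρ δ u = -u := by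
      intro u
      by_contra h4
      refine hcon (ρ δ u + u) (fun h5 => h4 (eq_neg_of_add_eq_zero_left h5)) ?_
      rw [map_add, hD, add_comm]
    refine hz (hn z fun y => iso (-1) (by norm_num) z y ?_ ?_)
    · rw [h3, neg_one_smul]
    · rw [h3, neg_one_smul]
  obtain ⟨x, hx, hδx⟩ := hplus
  obtain ⟨y, hxy, hδy⟩ : ∃ y, w x y = 1 ∧ ρ δ y = -y := by
    obtain ⟨z, hz⟩ := exists_pair hn hx
    refine ⟨(2 : ℂ)⁻¹ • (z - ρ δ z), ?_, ?_⟩
    · rw [map_smul, map_sub, hz]
      have h3 := hsp δ x z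
      rw [hδx, hz] at h3
      rw [show w x (ρ δ z) = -1 by linear_combination h3, smul_eq_mul]
      norm_num
    · rw [map_smul, map_sub, hD, ← smul_neg, neg_sub]
  have hdegE : ∀ u v, ρ δ u = u → ρ δ v = v →
      ρ δ * EE w u v - EE w u v * ρ δ = (2 : ℂ) • EE w u v := by
    intro u v hu hv
    rw [EE_bracket (hsp δ), hu, hv, two_smul]
  by_cases hcase : ∀ x', ρ δ x' = x' → ∃ c : ℂ, x' = c • x
  · -- the positive part has dimension one
    have hminus : ∀ v, ρ δ v = -v → v = w x v • y := by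
      intro v hv
      rw [← sub_eq_zero]
      refine hn _ fun u => ?_
      have hu : u = (2 : ℂ)⁻¹ • (u + ρ δ u) + (2 : ℂ)⁻¹ • (u - ρ δ u) := by module
      obtain ⟨c, hc⟩ := hcase ((2 : ℂ)⁻¹ • (u + ρ δ u)) (by
        rw [map_smul, map_add, hD, add_comm])
      have h3 : w (v - w x v • y) ((2 : ℂ)⁻¹ • (u - ρ δ u)) = 0 := by
        refine iso (-1) (by norm_num) _ _ ?_ ?_
        · rw [map_sub, map_smul, hv, hδy, neg_one_smul]
          module
        · rw [map_smul, map_sub, hD]
          module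
      rw [hu, map_add, h3, add_zero, hc, map_smul, map_sub, map_smul, LinearMap.sub_apply,
        LinearMap.smul_apply, w_anti hw v x, w_anti hw y x, hxy, smul_eq_mul, smul_eq_mul]
      ring
    -- the elements of degree two are multiples of one element
    have hdeg1 : ∀ A : Module.End ℂ N, ρ δ * A - A * ρ δ = (2 : ℂ) • A →
        ∃ c : ℂ, A = c • EE w x x := by
      intro A hA
      have hA' : ∀ u, ρ δ (A u) - A (ρ δ u) = (2 : ℂ) • A u := fun u => by
        have := congrArg (fun F => F u) hA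
        exact this
      have hAx : A x = 0 := by
        have h3 := hA' x
        rw [hδx] at h3
        have h4 : ρ δ (A x) = (3 : ℂ) • A x := by
          rw [sub_eq_iff_eq_add.1 h3]
          module
        have h5 : ρ δ (ρ δ (A x)) = (9 : ℂ) • A x := by
          rw [h4, map_smul, h4, smul_smul]
          norm_num
        rw [hD] at h5
        have h6 : (8 : ℂ) • A x = 0 := by
          have h7 : (9 : ℂ) • A x - A x = 0 := by rw [← h5, sub_self]
          rw [← h7]
          module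
        exact (smul_eq_zero.1 h6).resolve_left (by norm_num)
      have hAy : ∃ c : ℂ, A y = c • x := by
        apply hcase
        have h3 := hA' y
        rw [hδy, map_neg, sub_neg_eq_add] at h3
        rw [eq_sub_of_add_eq h3]
        module
      obtain ⟨c, hc⟩ := hAy
      refine ⟨(2 : ℂ)⁻¹ * c, ?_⟩
      ext u
      have hu : u = (2 : ℂ)⁻¹ • (u + ρ δ u) + (2 : ℂ)⁻¹ • (u - ρ δ u) := by module
      obtain ⟨c', hc'⟩ := hcase ((2 : ℂ)⁻¹ • (u + ρ δ u)) (by
        rw [map_smul, map_add, hD, add_comm])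
      have h3 := hminus ((2 : ℂ)⁻¹ • (u - ρ δ u)) (by
        rw [map_smul, map_sub, hD]
        module)
      set r := w x ((2 : ℂ)⁻¹ • (u - ρ δ u)) with hr
      rw [hc', h3] at hu
      rw [hu, LinearMap.smul_apply, map_add, map_smul, map_smul, hAx, hc, smul_zero, zero_add,
        EE_self, map_add, map_smul, map_smul, hw, hxy, smul_smul, smul_smul, smul_eq_mul,
        smul_eq_mul]
      congr 1
      ring
    obtain ⟨X0, hX0⟩ := hTf 0 2 (by decide)
    obtain ⟨X1, hX1⟩ := hTf 1 2 (by decide)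
    have hd : ∀ X, dg * T X - T X * dg = (2 : ℂ) • T X → (T X).trace = 0 →
        ρ δ * ρ X - ρ X * ρ δ = (2 : ℂ) • ρ X := by
      intro X h3 h4
      rw [← hρ, ← map_smul, ← sub_eq_zero, ← map_sub]
      apply h2
      rw [map_sub, hT, hδ, map_smul, h3, sub_self]
      unfold tl
      simp
    have hs : ∀ i : Fin 3, i ≠ 2 → dg * Matrix.single i 2 (1 : ℂ) - Matrix.single i 2 1 * dg =
        (2 : ℂ) • Matrix.single i 2 1 := by
      intro i hi
      ext a b
      rw [ent]
      fin_cases i <;> fin_cases a <;> fin_cases b <;> simp [Matrix.single] at hi ⊢ <;> norm_num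
    obtain ⟨c0, hc0⟩ := hdeg1 _ (hd X0 (by rw [hX0]; exact hs 0 (by decide))
      (by rw [hX0, trace_single_eq_of_ne _ _ _ (by decide)]))
    obtain ⟨c1, hc1⟩ := hdeg1 _ (hd X1 (by rw [hX1]; exact hs 1 (by decide))
      (by rw [hX1, trace_single_eq_of_ne _ _ _ (by decide)]))
    have h3 := h1 (c1 • X0 - c0 • X1) (by
      rw [map_sub, map_smul, map_smul, hc0, hc1, smul_smul, smul_smul, mul_comm, sub_self])
    rw [map_sub, map_smul, map_smul, hX0, hX1, tl_sub, tl_smul, tl_smul,
      tl_single (by decide), tl_single (by decide)] at h3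
    have h4 : c1 = 0 := by
      have := congrFun (congrFun h3 0) 2
      simpa [Matrix.single] using this
    have h5 : c0 = 0 := by
      have := congrFun (congrFun h3 1) 2
      simpa [Matrix.single] using this
    have h6 := h1 X0 (by rw [hc0, h5, zero_smul])
    rw [hX0, tl_single (by decide)] at h6
    have := congrFun (congrFun h6 0) 2
    simp [Matrix.single] at this
  · push Not at hcase
    obtain ⟨x', hδx', hx'⟩ := hcase
    obtain ⟨X0, hX0⟩ := hfull x x
    obtain ⟨X1, hX1⟩ := hfull x x'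
    obtain ⟨X2, hX2⟩ := hfull x' x'
    have t0 := deg X0 (by rw [hX0]; exact hdegE x x hδx hδx)
    have t1 := deg X1 (by rw [hX1]; exact hdegE x x' hδx hδx')
    have t2 := deg X2 (by rw [hX2]; exact hdegE x' x' hδx' hδx')
    obtain ⟨a, ha, hp, hq⟩ := dep3 ![T X0 0 2, T X1 0 2, T X2 0 2] ![T X0 1 2, T X1 1 2, T X2 1 2]
    have h3 : tl (T (a 0 • X0 + a 1 • X1 + a 2 • X2)) = 0 := by
      rw [← tlL_apply]
      simp only [map_add, map_smul]
      rw [tlL_apply, tlL_apply, tlL_apply, t0, t1, t2]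
      rw [Fin.sum_univ_three] at hp hq
      simp only [Matrix.cons_val_zero, Matrix.cons_val_one, Matrix.cons_val] at hp hq
      ext i j
      fin_cases i <;> fin_cases j <;> simp [Matrix.single] <;> assumption
    have h4 := h2 _ h3
    simp only [map_add, map_smul] at h4
    rw [hX0, hX1, hX2] at h4
    obtain ⟨h5, h6, h7⟩ := EE_inj hn hx hx' h4
    apply ha
    ext i
    fin_cases i
    · exact h5
    · exact h6
    · exact h7

/-- JOB NOL. -/
theorem nol (h : S_sli) : S_nol := by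
  intro M _ _ br N _ _ _ _ w ρ T hw hn hρ hsp hfull hT hTf δ hδ hδ2
  obtain ⟨z, hz⟩ := exists_ne (0 : N)
  have hE : EE w z z ≠ 0 := by
    intro h3
    obtain ⟨u, hu⟩ := exists_pair hn hz
    have h4 := congrArg (fun F => F u) h3
    simp only [EE_self, hu, LinearMap.zero_apply, mul_one] at h4
    exact hz ((smul_eq_zero.1 h4).resolve_left two_ne_zero)
  have hsc : ∀ X Y, T (br X Y) = T X * tl (T Y) - tl (T Y) * T X := by
    intro X Y
    rw [hT, comm_tl]
  have htb : ∀ X Y, tl (T (br X Y)) = T (br X Y) := by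
    intro X Y
    rw [hT, tl_comm]
  constructor
  · by_contra hcon
    push Not at hcon
    refine nol_aux hw hn hρ hsp hfull hT hTf hδ hδ2 hcon fun X0 hX0 => ?_
    by_contra hne
    have hI := ideal_full hw hn hρ hsp hfull
      ((LinearMap.ker (tlL.comp T)).map ρ) (by
        rintro X A ⟨Y, hY, rfl⟩
        refine ⟨br X Y, ?_, hρ X Y⟩
        have hY' : tl (T Y) = 0 := hY
        show tl (T (br X Y)) = 0
        rw [htb, hsc, hY', mul_zero, zero_mul, sub_self])
      (A := ρ X0) ⟨X0, hX0, rfl⟩ (hsp X0) hne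
    obtain ⟨X, hX⟩ := hTf 0 1 (by decide)
    have hmem : ρ X ∈ (LinearMap.ker (tlL.comp T)).map ρ := by
      have := mem_span_EE hw hn (hsp X)
      refine Submodule.span_le.2 ?_ this
      rintro E ⟨x, y, rfl⟩
      exact hI x y
    obtain ⟨Y, hY, hXY⟩ := hmem
    have hY' : tl (T Y) = 0 := hY
    have h3 := hcon (X - Y) (by rw [map_sub, hXY, sub_self])
    rw [map_sub, tl_sub, hY', sub_zero, hX, tl_single (by decide)] at h3
    have := congrFun (congrFun h3 0) 1
    simp [Matrix.single] at this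
  · by_contra hcon
    push Not at hcon
    refine nol_aux hw hn hρ hsp hfull hT hTf hδ hδ2 (fun X0 hX0 => ?_) hcon
    by_contra hne
    have hI := h ((LinearMap.ker ρ).map (tlL.comp T)) (by
        rintro A ⟨Y, _, rfl⟩
        exact trace_tl _) (by
        rintro i j hij A ⟨Y, hY, rfl⟩
        obtain ⟨X, hX⟩ := hTf i j hij
        refine ⟨br X Y, ?_, ?_⟩
        · show ρ (br X Y) = 0
          rw [hρ, show ρ Y = 0 from hY, mul_zero, zero_mul, sub_self]
        · show tl (T (br X Y)) = _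
          rw [htb, hsc, hX]
          rfl) (by
        intro hbot
        apply hne
        have : tl (T X0) ∈ (LinearMap.ker ρ).map (tlL.comp T) := ⟨X0, hX0, rfl⟩
        rw [hbot] at this
        exact this)
    obtain ⟨X, hX⟩ := hfull z z
    obtain ⟨Y, hY, hXY⟩ := hI (tl (T X)) (trace_tl _)
    have hY' : ρ Y = 0 := hY
    have hXY' : tl (T Y) = tl (T X) := hXY
    have h3 := hcon (X - Y) (by rw [map_sub, tl_sub, hXY', sub_self])
    rw [map_sub, hY', sub_zero, hX] at h3
    exact hE h3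

end Pool.Agent.Q280.D3
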